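import Pool.Agent.H49.KT.Targets

/-!
The main loop of the special branch.
-/

namespace Pool.Agent.H64.KT

open Pool.Agent.H49.KT Turing Function

/-- a greedy extension is a longer one, read from the end -/
theorem gr_succ (U : BM) (m : ℕ) : ∀ (i : ℕ) (P : List Bool),
    gr U m (i + 1) P = gr U m i P ++ [pick U m (gr U m i P)] := by
  intro i
  induction i with
  | zero => intro P; rfl
  | succ i ih =>
    intro P
    have h := ih (P ++ [pick U m P])
    exact h

theorem gr_len (U : BM) (m : ℕ) : ∀ (i : ℕ) (P : List Bool),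
    (gr U m i P).length = P.length + i := by
  intro i
  induction i with
  | zero => intro P; rfl
  | succ i ih =>
    intro P
    rw [gr_succ, List.length_append, ih, List.length_singleton]
    omega

theorem pf_ML : T_RND → T_ML := by
  intro hR U
  obtain ⟨B, hB⟩ := hR U
  refine ⟨B + 1, fun v z m r P hz hn hl hu => ?_⟩
  obtain ⟨h1, h2, h3, h4, h5, h6, h7, h8, h9, h10, h11, h12, h13, h14⟩ := hz
  have key := sp_lp_inv (v := v) (u := E₀ U) (z := z) (x := .n) (c := round) (un r) hn
    (fun i v₁ u₁ z₁ => Rst v v₁ ∧ u₁ = E₀ U ∧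
      z₁ = update (update z .n []) .pr (gr U m i P).reverse)
    (fun i => B * ((m + (P.length + i) + 1) * 2 ^ m))
    (fun i v₁ u₁ z₁ a h => ⟨⟨h.1.1, h.1.2.1, h.1.2.2⟩, h.2.1, h.2.2⟩)
    ⟨⟨hl, hu, rfl⟩, rfl, by
      funext k
      by_cases hk : k = .pr
      · subst hk
        rw [update_self, update_of_ne (by decide)]
        exact h2
      · rw [update_of_ne hk]⟩
    (by
      intro i hi v₁ u₁ z₁ hI _
      obtain ⟨hr, rfl, rfl⟩ := hI
      have hH : Hyp' m (gr U m i P) (update (update z .n []) .pr (gr U m i P).reverse) := by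
        refine ⟨?_, ?_, ?_, ?_, ?_, ?_, ?_, ?_, ?_, ?_, ?_, ?_, ?_, ?_⟩
        · rw [update_of_ne (by decide), update_of_ne (by decide)]; exact h1
        · rw [update_self]
        · rw [update_of_ne (by decide), update_of_ne (by decide)]; exact h3
        · rw [update_of_ne (by decide), update_of_ne (by decide)]; exact h4
        · rw [update_of_ne (by decide), update_of_ne (by decide)]; exact h5
        · rw [update_of_ne (by decide), update_of_ne (by decide)]; exact h6
        · rw [update_of_ne (by decide), update_of_ne (by decide)]; exact h7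
        · rw [update_of_ne (by decide), update_of_ne (by decide)]; exact h8
        · rw [update_of_ne (by decide), update_of_ne (by decide)]; exact h9
        · rw [update_of_ne (by decide), update_of_ne (by decide)]; exact h10
        · rw [update_of_ne (by decide), update_of_ne (by decide)]; exact h11
        · rw [update_of_ne (by decide), update_of_ne (by decide)]; exact h12
        · rw [update_of_ne (by decide), update_of_ne (by decide)]; exact h13
        · rw [update_of_ne (by decide), update_of_ne (by decide)]; exact h14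
      obtain ⟨v', hv', hS⟩ := hB v₁ _ m (gr U m i P) hH hr.1 hr.2.1
      refine ⟨v', E₀ U, _, ⟨⟨hv'.1, hv'.2.1, hv'.2.2.trans hr.2.2⟩, rfl, rfl⟩, ?_⟩
      rw [gr_len, update_idem] at hS
      rw [gr_succ, List.reverse_append]
      exact hS)
  obtain ⟨v', u', z', ⟨hI1, rfl, rfl⟩, _, hS⟩ := key
  refine ⟨v', hI1, ?_⟩
  have hlen : (un r).length = r := by simp
  rw [hlen] at hS
  refine hS.mono ?_
  have hsum : ∑ i ∈ Finset.range r, (B * ((m + (P.length + i) + 1) * 2 ^ m) + 1) ≤
      ∑ i ∈ Finset.range r, (B + 1) * ((m + P.length + r + 1) * 2 ^ m) := by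
    refine Finset.sum_le_sum fun i hi => ?_
    have hi' : i < r := Finset.mem_range.mp hi
    have e1 : (m + (P.length + i) + 1) * 2 ^ m ≤ (m + P.length + r + 1) * 2 ^ m :=
      Nat.mul_le_mul_right _ (by omega)
    have e2 : 1 ≤ (m + P.length + r + 1) * 2 ^ m :=
      Nat.succ_le_of_lt (Nat.mul_pos (by omega) (by positivity))
    calc B * ((m + (P.length + i) + 1) * 2 ^ m) + 1
        ≤ B * ((m + P.length + r + 1) * 2 ^ m) + (m + P.length + r + 1) * 2 ^ m :=
          Nat.add_le_add (Nat.mul_le_mul_left _ e1) e2
      _ = (B + 1) * ((m + P.length + r + 1) * 2 ^ m) := by ring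
  rw [Finset.sum_const, Finset.card_range, smul_eq_mul] at hsum
  calc 1 + ∑ i ∈ Finset.range r, (B * ((m + (P.length + i) + 1) * 2 ^ m) + 1)
      ≤ 1 + r * ((B + 1) * ((m + P.length + r + 1) * 2 ^ m)) := Nat.add_le_add_left hsum 1
    _ = (B + 1) * (r * (m + P.length + r + 1) * 2 ^ m) + 1 := by ring

end Pool.Agent.H64.KT
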