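import Pool.Agent.H49.KT.Targets

/-!
Simulation by the modified machine.
-/

namespace Pool.Agent.H64.KT

open Pool.Agent.H49.KT Turing Function

theorem outputs_mono {M : BM} {d x : List Bool} {t t' : ℕ} (h : M.Outputs d x t) (ht : t ≤ t') :
    M.Outputs d x t' := by
  obtain ⟨h⟩ := h
  exact ⟨⟨h.toEvalsTo, h.steps_le_m.trans ht⟩⟩

theorem pf_SIM : T_OUT → T_MO → T_SIM := by
  intro hO hM U
  obtain ⟨B₁, h1⟩ := hO U
  obtain ⟨⟨B₂, h2⟩, _⟩ := hM U
  refine ⟨B₂ * (B₁ + 3), fun d x t h => ?_⟩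
  obtain ⟨T, hTt, hn, hlt, hx, hd, _⟩ := h1 d x t h
  have h3 := h2 d T hn hlt
  rw [hx] at h3
  refine outputs_mono h3 ?_
  have hT : 1 ≤ T := by
    rcases Nat.eq_zero_or_pos T with h0 | h0
    · subst h0
      have : (at' U 0 d).l = some U.tm.main := rfl
      rw [this] at hn
      exact absurd hn (by simp)
    · exact h0
  have hL : 1 ≤ (x.length + 1) ^ 5 := Nat.one_le_pow _ _ (by omega)
  have hLx : x.length ≤ (x.length + 1) ^ 5 :=
    (Nat.le_succ _).trans (Nat.le_self_pow (by norm_num) _)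
  have e1 : (x.length + 1) ^ 5 * (T + 1) ≤ 2 * ((x.length + 1) ^ 5 * t) := by
    calc (x.length + 1) ^ 5 * (T + 1) ≤ (x.length + 1) ^ 5 * (2 * t) :=
          Nat.mul_le_mul_left _ (by omega)
      _ = 2 * ((x.length + 1) ^ 5 * t) := by ring
  have e2 : x.length ≤ (x.length + 1) ^ 5 * t := by
    calc x.length ≤ (x.length + 1) ^ 5 * 1 := by omega
      _ ≤ (x.length + 1) ^ 5 * t := Nat.mul_le_mul_left _ (by omega)
  have e3 : B₁ * T ≤ B₁ * ((x.length + 1) ^ 5 * t) := by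
    refine Nat.mul_le_mul_left _ ?_
    calc T ≤ 1 * t := by omega
      _ ≤ (x.length + 1) ^ 5 * t := Nat.mul_le_mul_right _ hL
  calc B₂ * ((x.length + 1) ^ 5 * (T + 1) + d.length)
      ≤ B₂ * (2 * ((x.length + 1) ^ 5 * t) + ((x.length + 1) ^ 5 * t +
          B₁ * ((x.length + 1) ^ 5 * t))) := by
        refine Nat.mul_le_mul_left _ (Nat.add_le_add e1 (hd.trans (Nat.add_le_add e2 e3)))
    _ = B₂ * (B₁ + 3) * (x.length + 1) ^ 5 * t := by ring

end Pool.Agent.H64.KT
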